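import Pool.Agent.MP_c69980_ag.H43.Spec1

/-!
Derivations on generated fields and algebraic extensions; linear dependence of derivations.
-/

set_option autoImplicit false

namespace Pool.Agent.MP_c69980_ag.H43

open MvPolynomial H60 Finset

lemma stab_closure (D : Der) (s : Set ℂ) (L : Subfield ℂ) (W : AddSubgroup ℂ)
    (hW : ∀ a ∈ L, ∀ w ∈ W, a * w ∈ W) (hs : s ⊆ L) (hD : ∀ x ∈ s, D x ∈ W) :
    ∀ x ∈ Subfield.closure s, D x ∈ W := by
  have hle : Subfield.closure s ≤ L := Subfield.closure_le.2 hs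
  intro x hx
  induction hx using Subfield.closure_induction with
  | mem x h => exact hD x h
  | one => rw [D.map_one_eq_zero]; exact zero_mem _
  | add x y _ _ a b => rw [map_add]; exact add_mem a b
  | neg x _ a => rw [map_neg]; exact neg_mem a
  | inv x h a =>
    rw [D.leibniz_inv]
    exact hW _ (neg_mem (pow_mem (inv_mem (hle h)) 2)) _ a
  | mul x y h h' a b =>
    rw [D.leibniz]
    exact add_mem (hW _ (hle h) _ b) (hW _ (hle h') _ a)

lemma stab_poly (D : Der) (K L : Subfield ℂ) (W : AddSubgroup ℂ)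
    (hW : ∀ a ∈ L, ∀ w ∈ W, a * w ∈ W) (hle : K ≤ L) (hD : ∀ x ∈ K, D x ∈ W) {x : ℂ} (hx : x ∈ L)
    (P : Polynomial K) : Polynomial.aeval x P ∈ L ∧
      D (Polynomial.aeval x P) - Polynomial.aeval x (Polynomial.derivative P) * D x ∈ W := by
  induction P using Polynomial.induction_on' with
  | add p q hp hq =>
    refine ⟨by rw [map_add]; exact add_mem hp.1 hq.1, ?_⟩
    convert add_mem hp.2 hq.2 using 1
    simp only [map_add]
    ring
  | monomial n a =>
    refine ⟨by rw [Polynomial.aeval_monomial]; exact mul_mem (hle a.2) (pow_mem hx n), ?_⟩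
    convert hW _ (pow_mem hx n) _ (hD a a.2) using 1
    rw [Polynomial.derivative_monomial, Polynomial.aeval_monomial, Polynomial.aeval_monomial,
      D.leibniz, D.leibniz_pow, map_mul, map_natCast]
    simp only [smul_eq_mul, nsmul_eq_mul]
    change (a : ℂ) * _ + _ * D a - (a : ℂ) * _ * _ * _ = _
    ring

lemma stab_alg (D : Der) (s : Set ℂ) (L : Subfield ℂ) (W : AddSubgroup ℂ)
    (hW : ∀ a ∈ L, ∀ w ∈ W, a * w ∈ W) (hs : s ⊆ L) (hD : ∀ x ∈ s, D x ∈ W) (x : ℂ) (hx : x ∈ L)
    (ha : IsAlgebraic (Subfield.closure s) x) : D x ∈ W := by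
  have key := stab_poly D _ L W hW (Subfield.closure_le.2 hs) (stab_closure D s L W hW hs hD) hx
  have h1 := (key (minpoly _ x)).2
  have h2 := (key (Polynomial.derivative (minpoly _ x))).1
  have h3 := (minpoly.irreducible ha.isIntegral).separable.aeval_derivative_ne_zero
    (minpoly.aeval _ x)
  rw [minpoly.aeval, map_zero, zero_sub, neg_mem_iff] at h1
  have h4 := hW _ (inv_mem h2) _ h1
  rwa [inv_mul_cancel_left₀ h3] at h4

theorem sStab : SStab := by
  refine fun D => ⟨fun s L hs hD x hx ha => stab_alg D s L L.toAddSubgroup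
    (fun a h w h' => L.mul_mem h h') hs hD x hx ha, fun s hD x ha => stab_alg D s ⊤ ⊥
    (fun a _ w h' => by rw [AddSubgroup.mem_bot.1 h', mul_zero]; exact zero_mem _)
    (Set.subset_univ _) hD x trivial ha, fun F ι x S hF hx u hu => ?_⟩
  have hS := RA_le (S := S) (fun c hc => (hF c hc).1) fun i => (hx i).1
  induction hu using Algebra.adjoin_induction with
  | mem u h => obtain ⟨i, rfl⟩ := h; exact (hx i).2
  | algebraMap c => exact (hF c c.2).2
  | add _ _ _ _ a b => rw [map_add]; exact add_mem a b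
  | mul _ _ h h' a b =>
    rw [D.leibniz]
    exact add_mem (mul_mem (hS _ h) b) (mul_mem (hS _ h') a)

theorem sDep (h : SInd) (h2 : SStab) : SDep := by
  intro F n s D hI hK
  obtain ⟨m, y, hm, -, -, -, halg⟩ := h.max F n s hI
  obtain ⟨c, hc, c0⟩ := Submodule.exists_mem_ne_zero_of_ne_bot
    (LinearMap.ker_ne_bot_of_finrank_lt (f := (Matrix.of fun i l => D l (y i)).mulVecLin)
      (by simp only [Module.finrank_fin_fun]; omega))
  have e : ∀ x, (∑ l, c l • D l) x = ∑ l, c l * D l x := fun x => der_sum_apply _ _ x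
  refine ⟨c, c0, fun x hx => (e x).symm.trans ((h2 _).2.1 _ ?_ x (halg x hx))⟩
  rintro z (hz | ⟨i, rfl⟩)
  · rw [e]
    exact sum_eq_zero fun l _ => by rw [hK l z hz, mul_zero]
  · rw [e]
    refine Eq.trans (sum_congr rfl fun l _ => mul_comm _ _) (congrFun (LinearMap.mem_ker.1 hc) i)

end Pool.Agent.MP_c69980_ag.H43
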